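import Mathlib

namespace Pool.Agent.Results.MP_db5ef1_al.No

/-- Terms in the signature `+, -, 0, ·` with variables in `X`. -/
inductive Tm (X : Type) : Type
  | var : X → Tm X
  | zero : Tm X
  | neg : Tm X → Tm X
  | add : Tm X → Tm X → Tm X
  | mul : Tm X → Tm X → Tm X

/-- Value of a term in a (not necessarily associative, non-unital) ring. -/
def Tm.ev {X R : Type} [NonUnitalNonAssocRing R] (a : X → R) : Tm X → R
  | var x => a x
  | zero => 0
  | neg s => -s.ev a
  | add s t => s.ev a + t.ev a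
  | mul s t => s.ev a * t.ev a

/-- A quasi-identity in the variables `Fin n`: finitely many premises and a conclusion. -/
structure QI where
  n : ℕ
  hyps : List (Tm (Fin n) × Tm (Fin n))
  concl : Tm (Fin n) × Tm (Fin n)

/-- The quasi-identity `q` is true in `R`. -/
def Holds (R : Type) [NonUnitalNonAssocRing R] (q : QI) : Prop :=
  ∀ a : Fin q.n → R, (∀ p ∈ q.hyps, p.1.ev a = p.2.ev a) → q.concl.1.ev a = q.concl.2.ev a

/-- Some finite set of quasi-identities true in `A` implies, in every ring, all of them. -/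
def FinBasis (A : Type) [NonUnitalNonAssocRing A] : Prop :=
  ∃ S : Set QI, S.Finite ∧ (∀ q ∈ S, Holds A q) ∧
    ∀ (B : Type) [NonUnitalNonAssocRing B], (∀ q ∈ S, Holds B q) → ∀ q, Holds A q → Holds B q

abbrev F := ZMod 2

/-- `V × W` with the product `(v, w) (v', w') = (0, β v v')`. -/
def T {V W : Type} [AddCommGroup V] [AddCommGroup W] (_β : V →+ V →+ W) := V × W

section
variable {V W : Type} [AddCommGroup V] [AddCommGroup W] (β : V →+ V →+ W)

instance : NonUnitalNonAssocRing (T β) :=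
  { (inferInstance : AddCommGroup (V × W)) with
    mul a b := (0, β a.1 b.1)
    left_distrib a b c := Prod.ext (add_zero _).symm (map_add (β a.1) _ _)
    right_distrib a b c := Prod.ext (add_zero _).symm (by
      change β (a.1 + b.1) c.1 = β a.1 c.1 + β b.1 c.1
      simp)
    zero_mul a := Prod.ext rfl (by change β 0 a.1 = 0; simp)
    mul_zero a := Prod.ext rfl (map_zero (β a.1)) }

instance [Finite V] [Finite W] : Finite (T β) := inferInstanceAs (Finite (V × W))

theorem mul_def (a b : T β) : a * b = ((0, β a.1 b.1) : V × W) := rfl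
end

abbrev A := T (AddMonoidHom.mul : F →+ F →+ F)

section
variable {X B C : Type} [NonUnitalNonAssocRing B] [NonUnitalNonAssocRing C]

theorem ev_hom (U : AddSubgroup B) (hU : ∀ x ∈ U, ∀ y ∈ U, x * y ∈ U) (g : B →+ C)
    (hg : ∀ x ∈ U, ∀ y ∈ U, g (x * y) = g x * g y) (a : X → B) (ha : ∀ i, a i ∈ U) (t : Tm X) :
    t.ev a ∈ U ∧ g (t.ev a) = t.ev (g ∘ a) := by
  induction t with
  | var x => exact ⟨ha x, rfl⟩
  | zero => exact ⟨U.zero_mem, map_zero g⟩
  | neg s hs => exact ⟨U.neg_mem hs.1, by simp [Tm.ev, hs.2]⟩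
  | add s t hs ht => exact ⟨U.add_mem hs.1 ht.1, by simp [Tm.ev, hs.2, ht.2]⟩
  | mul s t hs ht => exact ⟨hU _ hs.1 _ ht.1, by simp [Tm.ev, hg _ hs.1 _ ht.1, hs.2, ht.2]⟩

theorem loc (q : QI) (hq : Holds C q) (h : ∀ a : Fin q.n → B, ∃ U : AddSubgroup B,
    (∀ i, a i ∈ U) ∧ (∀ x ∈ U, ∀ y ∈ U, x * y ∈ U) ∧ ∀ z ∈ U, z ≠ 0 → ∃ g : B →+ C,
      (∀ x ∈ U, ∀ y ∈ U, g (x * y) = g x * g y) ∧ g z ≠ 0) : Holds B q := by
  intro a ha
  obtain ⟨U, h1, h2, h3⟩ := h a
  by_contra hne
  have m := fun t => (ev_hom U h2 (0 : B →+ C) (by simp) a h1 t).1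
  obtain ⟨g, hg, hz⟩ := h3 _ (U.sub_mem (m _) (m _)) (sub_ne_zero.2 hne)
  have e := fun t => (ev_hom U h2 g hg a h1 t).2
  apply hz
  rw [map_sub, e, e, sub_eq_zero]
  exact hq _ fun p hp => by rw [← e, ← e, ha p hp]

theorem diag [Finite B] (w : B) (hw : w ≠ 0)
    (h : ∀ g : B →+ C, (∀ x y, g (x * y) = g x * g y) → g w = 0) :
    ∃ q, Holds C q ∧ ¬ Holds B q := by
  obtain ⟨n, ⟨e⟩⟩ := Finite.exists_equiv_fin B
  refine ⟨⟨n, (List.finRange n ×ˢ List.finRange n).flatMap fun p =>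
    [(.add (.var p.1) (.var p.2), .var (e (e.symm p.1 + e.symm p.2))),
     (.mul (.var p.1) (.var p.2), .var (e (e.symm p.1 * e.symm p.2)))], .var (e w), .zero⟩,
    fun a ha => ?_, fun hB => hw ?_⟩
  · have k := fun x y p hp => ha p (List.mem_flatMap.2 ⟨(e x, e y), by simp, hp⟩)
    refine h (AddMonoidHom.mk' (fun x => a (e x)) fun x y => ?_) fun x y => ?_
    · simpa [Tm.ev] using (k x y _ List.mem_cons_self).symm
    · simpa [Tm.ev] using (k x y _ (List.mem_cons_of_mem _ List.mem_cons_self)).symm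
  · simpa [Tm.ev] using hB e.symm fun p hp => by
      obtain ⟨r, -, hr⟩ := List.mem_flatMap.1 hp
      simp only [List.mem_cons, List.not_mem_nil, or_false] at hr
      rcases hr with rfl | rfl <;> simp [Tm.ev]
end

section
variable (E : Type) [Field E] [Algebra F E] [Finite E]

def K : Submodule F (E × E → F) where
  carrier := {G | ∃ φ : Module.Dual F E, ∀ p, G p = φ (p.1 * p.2)}
  add_mem' := by
    rintro _ _ ⟨φ, h⟩ ⟨ψ, k⟩
    exact ⟨φ + ψ, fun p => by simp [h, k]⟩
  zero_mem' := ⟨0, fun _ => rfl⟩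
  smul_mem' := by
    rintro c _ ⟨φ, h⟩
    exact ⟨c • φ, fun p => by simp [h]⟩

def β : Module.Dual F (E × E) →+ Module.Dual F (E × E) →+ ((E × E → F) ⧸ K E) :=
  AddMonoidHom.mk' (fun u => AddMonoidHom.mk' (fun v => (K E).mkQ fun p => u p * v p)
    fun v w => by rw [← map_add]; congr 1; ext p; simp [mul_add])
    fun u v => by ext w; simp only [AddMonoidHom.mk'_apply, AddMonoidHom.add_apply, ← map_add]
                  congr 1; ext p; simp [add_mul]

variable {E}

/-- Functions invariant under translation by `(x, 0)`. -/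
def Q (x : E) : Submodule F (E × E → F) where
  carrier := {G | ∀ p, G (p + (x, 0)) = G p}
  add_mem' h k p := by simp only [Pi.add_apply, h p, k p]
  zero_mem' _ := rfl
  smul_mem' c _ h p := by simp only [Pi.smul_apply, h p]

omit [Finite E] in
theorem disj {x : E} (hx : x ≠ 0) : Function.Injective ((K E).mkQ ∘ₗ (Q x).subtype) := by
  refine (injective_iff_map_eq_zero _).2 fun ⟨G, hG⟩ h => ?_
  obtain ⟨φ, hφ⟩ := (Submodule.Quotient.mk_eq_zero _).1 h
  ext p
  have := hG (0, x⁻¹ * (p.1 * p.2))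
  change G _ = G _ at this
  simp only [Submodule.subtype_apply] at hφ
  simpa [hφ, hx] using this

theorem exx {n : ℕ} (hn : n < Module.finrank F E) (v : Fin n → Module.Dual F (E × E)) :
    ∃ x : E, x ≠ 0 ∧ ∀ i, v i (x, 0) = 0 := by
  obtain ⟨x, hx, h0⟩ := (Submodule.ne_bot_iff _).1 (LinearMap.ker_ne_bot_of_finrank_lt
    (f := LinearMap.pi fun i => v i ∘ₗ LinearMap.inl F E E) (by simpa using hn))
  exact ⟨x, h0, fun i => congrFun hx i⟩

theorem locB (q : QI) (hq : Holds A q) (hn : q.n < Module.finrank F E) : Holds (T (β E)) q := by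
  refine loc q hq fun a => ?_
  obtain ⟨x, hx, h0⟩ := exx hn fun i => (a i).1
  let U : AddSubgroup (T (β E)) :=
    { carrier := {s | s.1 (x, 0) = 0}
      add_mem' := fun {s t} hs ht => by
        change s.1 _ + t.1 _ = 0
        rw [hs, ht, add_zero]
      zero_mem' := rfl
      neg_mem' := fun {s} hs => by
        change -s.1 _ = 0
        rw [hs, neg_zero] }
  refine ⟨U, h0, fun _ _ _ _ => rfl, fun z _ hz => ?_⟩
  by_cases h1 : z.1 = 0
  · have h2 : z.2 ≠ 0 := fun h => hz (Prod.ext h1 h)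
    have mem : ∀ s ∈ U, ∀ t ∈ U, (fun p => s.1 p * t.1 p) ∈ Q x := fun s hs t ht p => by
      have hs : s.1 (x, 0) = 0 := hs
      have ht : t.1 (x, 0) = 0 := ht
      simp [hs, ht]
    suffices ∃ (p : E × E) (h : Module.Dual F ((E × E → F) ⧸ K E)), h z.2 ≠ 0 ∧
        ∀ s ∈ U, ∀ t ∈ U, h (β E s.1 t.1) = s.1 p * t.1 p by
      obtain ⟨p, h, h3, h4⟩ := this
      exact ⟨AddMonoidHom.mk' (fun s => (s.1 p, h s.2)) fun s t => Prod.ext rfl (map_add h _ _),
        fun s hs t ht => Prod.ext rfl (h4 s hs t ht), fun e => h3 (congrArg Prod.snd e)⟩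
    by_cases hr : z.2 ∈ LinearMap.range ((K E).mkQ ∘ₗ (Q x).subtype)
    · obtain ⟨G, hG⟩ := hr
      obtain ⟨L, hL⟩ := LinearMap.exists_leftInverse_of_injective _ (LinearMap.ker_eq_bot.2 (disj hx))
      have hL' := LinearMap.congr_fun hL
      obtain ⟨p, hp⟩ : ∃ p, G.1 p ≠ 0 := by
        by_contra! hc
        exact h2 (by rw [← hG, show G = 0 from Subtype.ext (funext hc), map_zero])
      refine ⟨p, LinearMap.proj p ∘ₗ (Q x).subtype ∘ₗ L, ?_, fun s hs t ht => ?_⟩
      · rw [← hG]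
        exact fun e => hp ((congrFun (congrArg Subtype.val (hL' G)) p).symm.trans e)
      · exact congrFun (congrArg Subtype.val (hL' ⟨_, mem s hs t ht⟩)) p
    · obtain ⟨h, h3, h4⟩ := Submodule.exists_dual_map_eq_bot_of_notMem hr inferInstance
      refine ⟨0, h, h3, fun s hs t ht => ?_⟩
      simpa [β] using (Submodule.eq_bot_iff _).1 h4 _ ⟨_, ⟨⟨_, mem s hs t ht⟩, rfl⟩, rfl⟩
  · obtain ⟨p, hp⟩ : ∃ p, z.1 p ≠ 0 := by
      by_contra! hc
      exact h1 (LinearMap.ext hc)
    exact ⟨AddMonoidHom.mk' (fun s => (0, s.1 p)) fun s t => Prod.ext (add_zero _).symm rfl,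
      fun s _ t _ => Prod.ext rfl (mul_zero (0 : F)).symm, fun e => hp (congrArg Prod.snd e)⟩

theorem kill (g : T (β E) →+ A) (hg : ∀ x y, g (x * y) = g x * g y) (a : Module.Dual F E) :
    g (0, β E (a ∘ₗ LinearMap.fst F E E) (a ∘ₗ LinearMap.snd F E E)) = 0 := by
  let f : Module.Dual F (E × E) →+ F := AddMonoidHom.mk' (fun v => (g (v, 0)).1) fun u v => by
    rw [show ((u + v, 0) : T (β E)) = (show T (β E) from (u, 0)) + (show T (β E) from (v, 0)) from
      Prod.ext rfl (add_zero _).symm, map_add]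
    rfl
  obtain ⟨p, hp⟩ := (Module.evalEquiv F (E × E)).surjective (f.toZModLinearMap 2)
  have hf : ∀ v : Module.Dual F (E × E), (g (v, 0)).1 = v p :=
    fun v => (LinearMap.congr_fun hp v).symm
  have hm : ∀ u v, g (0, β E u v) = ((0, u p * v p) : F × F) := fun u v => by
    rw [← hf, ← hf]
    exact hg (u, 0) (v, 0)
  let h : ((E × E → F) ⧸ K E) →+ F := AddMonoidHom.mk' (fun w => (g (0, w)).2) fun u v => by
    rw [show ((0, u + v) : T (β E)) = (show T (β E) from (0, u)) + (show T (β E) from (0, v)) from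
      Prod.ext (add_zero _).symm rfl, map_add]
    rfl
  have h0 : p.1 * p.2 = 0 := by
    refine (Module.forall_dual_apply_eq_zero_iff F _).1 fun φ => ?_
    let b := Module.finBasis F E
    have e : ∀ r : E × E, ∑ i, b.coord i r.1 * φ (b i * r.2) = φ (r.1 * r.2) := fun r => by
      conv_rhs => rw [← b.sum_repr r.1, Finset.sum_mul, map_sum]
      simp
    have z : ∑ i, β E (b.coord i ∘ₗ LinearMap.fst F E E)
        (φ ∘ₗ LinearMap.mulLeft F (b i) ∘ₗ LinearMap.snd F E E) = 0 := by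
      simp only [β, AddMonoidHom.mk'_apply, ← map_sum]
      exact (Submodule.Quotient.mk_eq_zero _).2 ⟨φ, fun r => by simpa using e r⟩
    rw [← e, ← map_zero h, ← z, map_sum]
    exact Finset.sum_congr rfl fun i _ => (congrArg Prod.snd (hm (b.coord i ∘ₗ LinearMap.fst F E E)
      (φ ∘ₗ LinearMap.mulLeft F (b i) ∘ₗ LinearMap.snd F E E))).symm
  rw [hm]
  rcases mul_eq_zero.1 h0 with h | h <;> simp [h] <;> rfl

theorem bad (hn : 1 < Module.finrank F E) : ∃ q, Holds A q ∧ ¬ Holds (T (β E)) q := by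
  have : Finite (Module.Dual F (E × E)) := Finite.of_injective _ DFunLike.coe_injective
  have : Finite ((E × E → F) ⧸ K E) := Finite.of_surjective _ (K E).mkQ_surjective
  obtain ⟨a, ha⟩ := Module.Projective.exists_dual_ne_zero F (one_ne_zero : (1 : E) ≠ 0)
  obtain ⟨x, hx, h0⟩ := exx hn fun _ => a ∘ₗ LinearMap.fst F E E
  refine diag _ (fun e => ?_) fun g hg => kill g hg a
  have h1 : a x = 0 := h0 0
  have := congrFun (congrArg Subtype.val ((injective_iff_map_eq_zero _).1 (disj hx)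
    ⟨fun p => a p.1 * a p.2, fun p => by simp [h1]⟩ (congrArg Prod.snd e))) (1, 1)
  exact ha (mul_self_eq_zero.1 this)
end

theorem result : ∃ (A : Type) (_ : NonUnitalNonAssocRing A), Finite A ∧
    (∀ x y : A, x * y = y * x) ∧ (∀ x y z : A, x * y * z = x * (y * z)) ∧
    (∀ x y : A, x * x * y = x * (x * y) ∧ y * x * x = y * (x * x)) ∧
    (∀ x y : A, x * x * y * x = x * x * (y * x)) ∧ ¬ FinBasis A := by
  have z : ∀ x y z : A, x * y * z = 0 ∧ x * (y * z) = 0 := fun x y z =>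
    ⟨Prod.ext rfl (zero_mul z.1), Prod.ext rfl (mul_zero x.1)⟩
  refine ⟨A, _, inferInstance, fun x y => Prod.ext rfl (mul_comm x.1 y.1), by simp [z], by simp [z],
    by simp [z], ?_⟩
  rintro ⟨S, hS, h1, h2⟩
  obtain ⟨N, hN⟩ := (hS.image QI.n).bddAbove
  have hk : Module.finrank F (GaloisField 2 (N + 2)) = N + 2 := GaloisField.finrank 2 (by omega)
  obtain ⟨q, h3, h4⟩ := bad (E := GaloisField 2 (N + 2)) (by omega)
  exact h4 (h2 _ (fun r hr => locB r (h1 r hr) (by have := hN ⟨r, hr, rfl⟩; omega)) q h3)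

end Pool.Agent.Results.MP_db5ef1_al.No
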